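import Pool.Agent.Lib.MP_c3d375_an.Neg.Iface

/-! TA: asymptotics at the tip (helper47). -/

set_option autoImplicit false

open Complex Metric Set Filter Topology ComplexConjugate Pool.Agent.Lib.MP_c3d375_an

namespace C3N.H47

/-- `chi` on the reals -/
noncomputable def chiR (a e s : ℝ) : ℝ := s + e / a / (1 - a * s)

theorem chi_ofReal (a e s : ℝ) : chi a e (s : ℂ) = (chiR a e s : ℂ) := by
  simp [chi, chiR]

/-- the inverse of `chi` on the reals -/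
noncomputable def gR (a e x : ℝ) : ℝ := ((1 + a * x) - √((1 - a * x) ^ 2 + 4 * e)) / (2 * a)

theorem chiR_gR {a e : ℝ} (ha : 0 < a) (he : 0 < e) (x : ℝ) : chiR a e (gR a e x) = x := by
  set s := √((1 - a * x) ^ 2 + 4 * e) with hs
  have h0 : 0 ≤ (1 - a * x) ^ 2 + 4 * e := by positivity
  have hs2 : s ^ 2 = (1 - a * x) ^ 2 + 4 * e := Real.sq_sqrt h0
  have hsn : 0 ≤ s := Real.sqrt_nonneg _
  have hpos : 0 < (1 - a * x) + s := by
    by_contra h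
    have h1 : s ≤ -(1 - a * x) := by linarith
    have h2 : s ^ 2 ≤ (-(1 - a * x)) ^ 2 := pow_le_pow_left₀ hsn h1 2
    nlinarith
  have e1 : 1 - a * gR a e x = ((1 - a * x) + s) / 2 := by
    rw [gR, ← hs]; field_simp; ring
  have e2 : e / a / (((1 - a * x) + s) / 2) = (s - (1 - a * x)) / (2 * a) := by
    rw [div_div, div_eq_div_iff (by positivity) (by positivity)]
    linear_combination (-a / 2) * hs2
  rw [chiR, e1, e2, gR, ← hs]
  field_simp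
  ring

theorem gR_zero {a x : ℝ} (ha : 0 < a) (hx : 0 < 1 - a * x) : gR a 0 x = x := by
  rw [gR, mul_zero, add_zero, Real.sqrt_sq hx.le]
  field_simp
  ring

theorem hasDerivAt_gR {a : ℝ} (ha : 0 < a) {x : ℝ → ℝ} {x' : ℝ} (hx : HasDerivAt x x' 0)
    (h0 : 0 < 1 - a * x 0) :
    HasDerivAt (fun e => gR a e (x e)) (x' - 1 / (a * (1 - a * x 0))) 0 := by
  have h1 : HasDerivAt (fun e => 1 - a * x e) (-(a * x')) 0 := (hx.const_mul a).const_sub 1
  have h2 : HasDerivAt (fun e : ℝ => 4 * e) 4 0 := by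
    simpa using (hasDerivAt_id (0 : ℝ)).const_mul 4
  have h3 : HasDerivAt (fun e => (1 - a * x e) ^ 2 + 4 * e)
      (2 * (1 - a * x 0) * -(a * x') + 4) 0 := by
    refine ((h1.pow 2).add h2).congr_deriv ?_
    simp
  have e1 : √((1 - a * x 0) ^ 2 + 4 * 0) = 1 - a * x 0 := by
    rw [mul_zero, add_zero]
    exact Real.sqrt_sq h0.le
  have hne : (1 - a * x 0) ^ 2 + 4 * 0 ≠ 0 := by positivity
  have h4 := h3.sqrt hne
  have h5 : HasDerivAt (fun e => 1 + a * x e) (a * x') 0 := (hx.const_mul a).const_add 1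
  have h6 := (h5.sub h4).div_const (2 * a)
  refine h6.congr_deriv ?_
  rw [e1]
  have := h0.ne'
  field_simp
  ring

/-- `q₀` on the reals -/
noncomputable def Q (s : ℝ) : ℝ := √((1 + s) / (1 - s))

theorem Q_eq {s k : ℝ} (hk : 0 < k) (hs : k ^ 2 = 1 - s ^ 2) (h1 : -1 < s) (h2 : s < 1) :
    Q s = (1 + s) / k := by
  rw [Q, show (1 + s) / (1 - s) = ((1 + s) / k) ^ 2 by
    rw [div_pow, div_eq_div_iff (by linarith) (by positivity), hs]; ring]
  exact Real.sqrt_sq (div_nonneg (by linarith) hk.le)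

theorem hasDerivAt_Q {x : ℝ → ℝ} {x' k : ℝ} (hx : HasDerivAt x x' 0) (hk : 0 < k)
    (hs : k ^ 2 = 1 - x 0 ^ 2) (h1 : -1 < x 0) (h2 : x 0 < 1) :
    HasDerivAt (fun e => Q (x e)) (x' / (k * (1 - x 0))) 0 := by
  have h3 : HasDerivAt (fun e => (1 + x e) / (1 - x e))
      ((x' * (1 - x 0) - (1 + x 0) * -x') / (1 - x 0) ^ 2) 0 :=
    (hx.const_add 1).div (hx.const_sub 1) (by linarith)
  have hne : (1 + x 0) / (1 - x 0) ≠ 0 := (div_pos (by linarith) (by linarith)).ne'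
  have h4 := h3.sqrt hne
  refine h4.congr_deriv ?_
  have h5 : √((1 + x 0) / (1 - x 0)) = (1 + x 0) / k := Q_eq hk hs h1 h2
  rw [h5]
  have h6 : (1 : ℝ) - x 0 ≠ 0 := by linarith
  have h7 : (1 : ℝ) + x 0 ≠ 0 := by linarith
  field_simp
  rw [hs]
  ring

section main

variable {a δ κ : ℝ}

/-- the data at `e = 0` -/
structure P (a δ κ : ℝ) : Prop where
  a0 : 0 < a
  a1 : a < 1
  d0 : 0 < δ
  d1 : δ < 1
  k0 : 0 < κ
  hk : κ ^ 2 = 1 - δ ^ 2
  ha : a ^ 2 * (1 + κ ^ 2) = 1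

theorem P.b_eq (h : P a δ κ) : 1 - a ^ 2 = a ^ 2 * κ ^ 2 := by linear_combination -h.ha

noncomputable def mu (a e : ℝ) : ℝ := e / (a * (1 - a ^ 2))
noncomputable def AA (a e : ℝ) : ℝ := 1 + e / (1 - a ^ 2)
noncomputable def dd (a e : ℝ) : ℝ := √(AA a e ^ 2 - (1 - a ^ 2) / a ^ 2)
noncomputable def Sp (a e : ℝ) : ℝ := gR a e (mu a e + dd a e)
noncomputable def Sm (a e : ℝ) : ℝ := gR a e (mu a e - dd a e)
noncomputable def DD (a e : ℝ) : ℝ := AA a e / dd a e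
noncomputable def Phi (a e : ℝ) : ℝ := ((1 + DD a e) * Q (Sm a e) - (DD a e - 1) * Q (Sp a e)) / 2

theorem P.b_pos (h : P a δ κ) : 0 < 1 - a ^ 2 := by
  rw [h.b_eq]; have := h.a0; have := h.k0; positivity

theorem P.dd_zero (h : P a δ κ) : dd a 0 = δ := by
  have h1 : AA a 0 ^ 2 - (1 - a ^ 2) / a ^ 2 = δ ^ 2 := by
    have h2 := h.a0.ne'
    rw [AA, h.b_eq, zero_div, add_zero, mul_div_cancel_left₀ _ (pow_ne_zero 2 h2), h.hk]
    ring
  rw [dd, h1, Real.sqrt_sq h.d0.le]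

theorem P.ad_lt (h : P a δ κ) : a * δ < 1 := by
  have := h.a0; have := h.a1; have := h.d0; have := h.d1
  nlinarith

theorem P.mu_zero (_h : P a δ κ) : mu a 0 = 0 := by simp [mu]

theorem P.Sp_zero (h : P a δ κ) : Sp a 0 = δ := by
  rw [Sp, h.mu_zero, h.dd_zero, zero_add]
  exact gR_zero h.a0 (by have := h.ad_lt; linarith)

theorem P.Sm_zero (h : P a δ κ) : Sm a 0 = -δ := by
  rw [Sm, h.mu_zero, h.dd_zero, zero_sub]
  exact gR_zero h.a0 (by have := h.a0; have := h.d0; nlinarith)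

theorem P.DD_zero (h : P a δ κ) : DD a 0 = 1 / δ := by
  rw [DD, h.dd_zero]; simp [AA]

theorem P.mu' (_h : P a δ κ) : HasDerivAt (mu a) (1 / (a * (1 - a ^ 2))) 0 :=
  (hasDerivAt_id (0 : ℝ)).div_const _

theorem P.AA' (_h : P a δ κ) : HasDerivAt (AA a) (1 / (1 - a ^ 2)) 0 :=
  ((hasDerivAt_id (0 : ℝ)).div_const _).const_add 1

theorem P.dd' (h : P a δ κ) : HasDerivAt (dd a) (1 / ((1 - a ^ 2) * δ)) 0 := by
  have h1 : HasDerivAt (fun e => AA a e ^ 2 - (1 - a ^ 2) / a ^ 2)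
      (2 * AA a 0 * (1 / (1 - a ^ 2))) 0 := by
    simpa using (h.AA'.pow 2).sub_const ((1 - a ^ 2) / a ^ 2)
  have h2 : AA a 0 ^ 2 - (1 - a ^ 2) / a ^ 2 = δ ^ 2 := by
    have h2 := h.a0.ne'
    rw [AA, h.b_eq, zero_div, add_zero, mul_div_cancel_left₀ _ (pow_ne_zero 2 h2), h.hk]
    ring
  have hd := h.d0
  have h3 := h1.sqrt (by rw [h2]; positivity)
  refine h3.congr_deriv ?_
  rw [h2, Real.sqrt_sq hd.le]
  have hA : AA a 0 = 1 := by simp [AA]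
  have hb := h.b_pos.ne'
  rw [hA]
  field_simp

theorem P.Sp' (h : P a δ κ) : HasDerivAt (Sp a)
    (1 / (a * (1 - a ^ 2)) + 1 / ((1 - a ^ 2) * δ) - 1 / (a * (1 - a * δ))) 0 := by
  have h1 : HasDerivAt (fun e => mu a e + dd a e) _ 0 := h.mu'.add h.dd'
  have h0 : mu a 0 + dd a 0 = δ := by rw [h.mu_zero, h.dd_zero, zero_add]
  have h2 := hasDerivAt_gR h.a0 h1 (by
    show 0 < 1 - a * (mu a 0 + dd a 0)
    rw [h0]; have := h.ad_lt; linarith)
  rw [h0] at h2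
  exact h2

theorem P.Sm' (h : P a δ κ) : HasDerivAt (Sm a)
    (1 / (a * (1 - a ^ 2)) - 1 / ((1 - a ^ 2) * δ) - 1 / (a * (1 + a * δ))) 0 := by
  have h1 : HasDerivAt (fun e => mu a e - dd a e) _ 0 := h.mu'.sub h.dd'
  have h0 : mu a 0 - dd a 0 = -δ := by rw [h.mu_zero, h.dd_zero, zero_sub]
  have h2 := hasDerivAt_gR h.a0 h1 (by
    show 0 < 1 - a * (mu a 0 - dd a 0)
    rw [h0]; have := h.a0; have := h.d0; nlinarith)
  rw [h0, mul_neg, sub_neg_eq_add] at h2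
  exact h2

theorem P.DD' (h : P a δ κ) : HasDerivAt (DD a)
    ((1 / (1 - a ^ 2) * δ - 1 * (1 / ((1 - a ^ 2) * δ))) / δ ^ 2) 0 := by
  have h1 := h.AA'.div h.dd' (by rw [h.dd_zero]; exact h.d0.ne')
  have hA : AA a 0 = 1 := by simp [AA]
  rw [h.dd_zero, hA] at h1
  exact h1

theorem P.Qp' (h : P a δ κ) : HasDerivAt (fun e => Q (Sp a e))
    ((1 / (a * (1 - a ^ 2)) + 1 / ((1 - a ^ 2) * δ) - 1 / (a * (1 - a * δ))) /
      (κ * (1 - δ))) 0 := by
  have h0 := h.Sp_zero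
  have h2 := hasDerivAt_Q h.Sp' h.k0 (by rw [h0]; exact h.hk) (by rw [h0]; linarith [h.d0])
    (by rw [h0]; exact h.d1)
  rw [h0] at h2
  exact h2

theorem P.Qm' (h : P a δ κ) : HasDerivAt (fun e => Q (Sm a e))
    ((1 / (a * (1 - a ^ 2)) - 1 / ((1 - a ^ 2) * δ) - 1 / (a * (1 + a * δ))) /
      (κ * (1 + δ))) 0 := by
  have h0 := h.Sm_zero
  have h2 := hasDerivAt_Q h.Sm' h.k0 (by rw [h0, neg_sq]; exact h.hk)
    (by rw [h0]; linarith [h.d1]) (by rw [h0]; linarith [h.d0])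
  rw [h0, sub_neg_eq_add] at h2
  exact h2

theorem P.Qp_zero (h : P a δ κ) : Q (Sp a 0) = (1 + δ) / κ := by
  rw [h.Sp_zero]
  exact Q_eq h.k0 h.hk (by linarith [h.d0]) h.d1

theorem P.Qm_zero (h : P a δ κ) : Q (Sm a 0) = (1 - δ) / κ := by
  rw [h.Sm_zero, Q_eq h.k0 (by rw [neg_sq]; exact h.hk) (by linarith [h.d1]) (by linarith [h.d0])]
  ring

theorem P.Phi_zero (h : P a δ κ) : Phi a 0 = 0 := by
  have h1 := h.d0.ne'
  have h2 := h.k0.ne'
  rw [Phi, h.Qm_zero, h.Qp_zero, h.DD_zero]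
  field_simp
  ring

theorem P.Phi' (h : P a δ κ) : HasDerivAt (Phi a) (-(1 / (2 * (1 - a ^ 2) * κ))) 0 := by
  have h1 := ((h.DD'.const_add 1).mul h.Qm').sub ((h.DD'.sub_const 1).mul h.Qp')
  have h2 := h1.div_const 2
  refine h2.congr_deriv ?_
  have e0 : DD a 0 = 1 / δ := h.DD_zero
  simp only [h.Qm_zero, h.Qp_zero, e0]
  have n1 := h.d0.ne'
  have n2 := h.k0.ne'
  have n3 := h.a0.ne'
  have n4 := h.b_pos.ne'
  have n5 : (1 : ℝ) - δ ≠ 0 := by linarith [h.d1]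
  have n6 : (1 : ℝ) + δ ≠ 0 := by linarith [h.d0]
  have n7 : 1 - a * δ ≠ 0 := by linarith [h.ad_lt]
  have n8 : 1 + a * δ ≠ 0 := by have := h.a0; have := h.d0; positivity
  have hk := h.hk
  have ha := h.ha
  have e1 : ∀ N : ℝ, (1 + 1 / δ) * (N / (κ * (1 + δ))) = N / (κ * δ) := by
    intro N
    field_simp
    ring
  have e2 : ∀ N : ℝ, (1 / δ - 1) * (N / (κ * (1 - δ))) = N / (κ * δ) := by
    intro N
    field_simp
  have e3 : 1 / (a * (1 - a * δ)) - 1 / (a * (1 + a * δ)) = δ / (1 - a ^ 2) := by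
    have h5 : (1 - a * δ) * (1 + a * δ) = 2 * (1 - a ^ 2) := by
      have : δ ^ 2 = 1 - κ ^ 2 := by linarith
      linear_combination (-a ^ 2) * this + ha
    have h6 : 1 / (a * (1 - a * δ)) - 1 / (a * (1 + a * δ)) =
        2 * δ / ((1 - a * δ) * (1 + a * δ)) := by
      field_simp
      ring
    rw [h6, h5]
    field_simp
  have e4 : (1 / (a * (1 - a ^ 2)) - 1 / ((1 - a ^ 2) * δ) -
      1 / (a * (1 + a * δ))) / (κ * δ) - (1 / (a * (1 - a ^ 2)) + 1 / ((1 - a ^ 2) * δ) -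
      1 / (a * (1 - a * δ))) / (κ * δ) = (-2 / ((1 - a ^ 2) * δ) + δ / (1 - a ^ 2)) / (κ * δ) := by
    rw [← sub_div, ← e3]
    ring
  rw [e1, e2]
  have e5 : ∀ X Y Z V : ℝ, (X + Y - (Z + V)) / 2 = ((X - Z) + (Y - V)) / 2 := by intros; ring
  rw [e5, e4]
  field_simp
  ring

/-- the bracket of third order -/
noncomputable def BB (a e : ℝ) : ℝ :=
  (1 + DD a e) * (Q (Sm a e) ^ 3 / (1 + e * Q (Sm a e) ^ 2 / (8 * (1 - a ^ 2)))) -
  (DD a e - 1) * (Q (Sp a e) ^ 3 / (1 + e * Q (Sp a e) ^ 2 / (8 * (1 - a ^ 2))))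

theorem P.BB_zero (h : P a δ κ) : BB a 0 = -4 / κ := by
  have h1 := h.d0.ne'
  have h2 := h.k0.ne'
  rw [BB, h.Qm_zero, h.Qp_zero, h.DD_zero]
  simp only [zero_mul, zero_div, add_zero, div_one]
  have h3 := h.hk
  have h4 : (1 + 1 / δ) * ((1 - δ) / κ) ^ 3 - (1 / δ - 1) * ((1 + δ) / κ) ^ 3 =
      -4 * (1 - δ ^ 2) / κ ^ 3 := by
    field_simp
    ring
  rw [h4, ← h3]
  field_simp

theorem P.BB_cont (h : P a δ κ) : ContinuousAt (BB a) 0 := by
  have c1 := h.DD'.continuousAt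
  have c2 := h.Qm'.continuousAt
  have c3 := h.Qp'.continuousAt
  have n1 : 1 + 0 * Q (Sm a 0) ^ 2 / (8 * (1 - a ^ 2)) ≠ 0 := by simp
  have n2 : 1 + 0 * Q (Sp a 0) ^ 2 / (8 * (1 - a ^ 2)) ≠ 0 := by simp
  have i : ContinuousAt (fun e : ℝ => e) 0 := continuousAt_id
  exact ((continuousAt_const.add c1).mul ((c2.pow 3).div (continuousAt_const.add
      ((i.mul (c2.pow 2)).div_const _)) n1)).sub
    ((c1.sub continuousAt_const).mul ((c3.pow 3).div (continuousAt_const.add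
      ((i.mul (c3.pow 2)).div_const _)) n2))

theorem P.ratio (h : P a δ κ) : ∀ᶠ e in 𝓝[>] (0 : ℝ),
    Phi a e / e - BB a e / (16 * (1 - a ^ 2)) ≤ -(1 / (5 * (1 - a ^ 2) * κ)) := by
  have h1 := hasDerivAt_iff_tendsto_slope_zero.1 h.Phi'
  have h2 : Tendsto (fun e => Phi a e / e) (𝓝[>] 0) (𝓝 (-(1 / (2 * (1 - a ^ 2) * κ)))) := by
    have h3 := h1.mono_left (nhdsWithin_mono (0 : ℝ) (fun x (hx : 0 < x) => hx.ne'))
    refine h3.congr fun t => ?_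
    rw [zero_add, h.Phi_zero, sub_zero, smul_eq_mul]
    ring
  have h4 : Tendsto (fun e => BB a e / (16 * (1 - a ^ 2))) (𝓝[>] 0)
      (𝓝 (-4 / κ / (16 * (1 - a ^ 2)))) := by
    have := h.BB_cont.tendsto
    rw [h.BB_zero] at this
    exact (this.mono_left nhdsWithin_le_nhds).div_const _
  have h5 := h2.sub h4
  have hb := h.b_pos
  have hk := h.k0
  have h6 : -(1 / (2 * (1 - a ^ 2) * κ)) - -4 / κ / (16 * (1 - a ^ 2)) <
      -(1 / (5 * (1 - a ^ 2) * κ)) := by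
    have e1 : -(1 / (2 * (1 - a ^ 2) * κ)) - -4 / κ / (16 * (1 - a ^ 2)) =
        -(1 / 4) * (1 / ((1 - a ^ 2) * κ)) := by
      field_simp
      ring
    have e2 : -(1 / (5 * (1 - a ^ 2) * κ)) = -(1 / 5) * (1 / ((1 - a ^ 2) * κ)) := by
      field_simp
    rw [e1, e2]
    have : 0 < 1 / ((1 - a ^ 2) * κ) := by positivity
    linarith
  filter_upwards [h5.eventually_lt_const h6] with e he
  exact he.le

/-- the function of the value at the tip -/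
noncomputable def FF (ρ s : ℝ) : ℝ := ρ * √((1 + s) / (1 - s)) / (1 + 2 * (ρ * √((1 + s) / (1 - s))) ^ 2)

theorem FF_eq (ρ s : ℝ) : FF ρ s = ρ * Q s - 2 * ρ ^ 3 * (Q s ^ 3 / (1 + 2 * ρ ^ 2 * Q s ^ 2)) := by
  have h : (1 + 2 * ρ ^ 2 * Q s ^ 2) ≠ 0 := by positivity
  have e1 : 1 + 2 * (ρ * Q s) ^ 2 = 1 + 2 * ρ ^ 2 * Q s ^ 2 := by ring
  rw [FF, ← Q, e1, div_eq_iff h]
  field_simp
  ring

theorem P.value (h : P a δ κ) : ∀ᶠ e in 𝓝[>] (0 : ℝ),
    ((1 + DD a e) * FF (√(e / (16 * (1 - a ^ 2)))) (Sm a e) -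
      (DD a e - 1) * FF (√(e / (16 * (1 - a ^ 2)))) (Sp a e)) / 2 ≤
    -(a / 20 * (1 - a ^ 2) ^ (-2 : ℝ) * e ^ (3 / 2 : ℝ)) := by
  filter_upwards [h.ratio, self_mem_nhdsWithin] with e he he0
  have he0' : 0 < e := he0
  have hb := h.b_pos
  have hk := h.k0
  have ha := h.a0
  set ρ := √(e / (16 * (1 - a ^ 2))) with hρ
  have hρ2 : ρ ^ 2 = e / (16 * (1 - a ^ 2)) := Real.sq_sqrt (by positivity)
  have hρ0 : 0 ≤ ρ := Real.sqrt_nonneg _
  have e1 : ∀ s, 1 + 2 * ρ ^ 2 * Q s ^ 2 = 1 + e * Q s ^ 2 / (8 * (1 - a ^ 2)) := by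
    intro s
    rw [hρ2]
    field_simp
    ring
  have e2 : ((1 + DD a e) * FF ρ (Sm a e) - (DD a e - 1) * FF ρ (Sp a e)) / 2 =
      ρ * e * (Phi a e / e - BB a e / (16 * (1 - a ^ 2))) := by
    rw [FF_eq, FF_eq, e1, e1]
    have e3 : ρ ^ 3 = ρ * (e / (16 * (1 - a ^ 2))) := by rw [← hρ2]; ring
    have e4 : ρ * e * (Phi a e / e - BB a e / (16 * (1 - a ^ 2))) =
        ρ * Phi a e - ρ * (e / (16 * (1 - a ^ 2))) * BB a e := by
      field_simp
    rw [e4, ← e3, Phi, BB]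
    ring
  rw [e2]
  have e5 : ρ * e * (Phi a e / e - BB a e / (16 * (1 - a ^ 2))) ≤
      ρ * e * -(1 / (5 * (1 - a ^ 2) * κ)) := by
    apply mul_le_mul_of_nonneg_left he
    positivity
  refine e5.trans (le_of_eq ?_)
  have hsq : √(1 - a ^ 2) = a * κ := by
    rw [h.b_eq, ← mul_pow]
    exact Real.sqrt_sq (by positivity)
  have e6 : ρ = √e / (4 * (a * κ)) := by
    rw [hρ, Real.sqrt_div he0'.le, Real.sqrt_mul (by norm_num), hsq]
    congr 2
    rw [show (16 : ℝ) = 4 ^ 2 by norm_num]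
    exact Real.sqrt_sq (by norm_num)
  have e7 : e ^ (3 / 2 : ℝ) = e * √e := by
    rw [show (3 / 2 : ℝ) = 1 + 1 / 2 by norm_num, Real.rpow_add he0', Real.rpow_one,
      Real.sqrt_eq_rpow]
  have e8 : (1 - a ^ 2) ^ (-2 : ℝ) = 1 / (1 - a ^ 2) ^ 2 := by
    rw [Real.rpow_neg hb.le, Real.rpow_two, one_div]
  rw [e6, e7, e8, h.b_eq]
  field_simp
  ring

end main

theorem exists_P {a : ℝ} (h1 : 19 / 20 ≤ a) (h2 : a < 1) : ∃ δ κ : ℝ, P a δ κ := by
  have ha : 0 < a := by linarith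
  have hb : 0 < 1 - a ^ 2 := by nlinarith
  set κ := √(1 - a ^ 2) / a with hκ
  have hk0 : 0 < κ := div_pos (Real.sqrt_pos.2 hb) ha
  have hk2 : κ ^ 2 = (1 - a ^ 2) / a ^ 2 := by
    rw [hκ, div_pow, Real.sq_sqrt hb.le]
  have hk1 : κ ^ 2 < 1 := by
    rw [hk2, div_lt_one (by positivity)]
    nlinarith
  refine ⟨√(1 - κ ^ 2), κ, ha, h2, Real.sqrt_pos.2 (by linarith), ?_, hk0, ?_, ?_⟩
  · rw [Real.sqrt_lt' one_pos]
    nlinarith
  · rw [Real.sq_sqrt (by linarith)]; ring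
  · rw [hk2]; field_simp; ring

theorem ta_st (_ : GINStatement) : TAStatement := by
  intro a h1 h2
  obtain ⟨δ, κ, h⟩ := exists_P h1 h2
  have ha := h.a0
  have hb := h.b_pos
  have c1 : ∀ᶠ e in 𝓝[>] (0 : ℝ), -1 < Sm a e := by
    have := h.Sm'.continuousAt.tendsto.mono_left (nhdsWithin_le_nhds (s := Ioi 0))
    rw [h.Sm_zero] at this
    exact this.eventually_const_lt (by linarith [h.d1])
  have c2 : ∀ᶠ e in 𝓝[>] (0 : ℝ), Sm a e < 0 := by
    have := h.Sm'.continuousAt.tendsto.mono_left (nhdsWithin_le_nhds (s := Ioi 0))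
    rw [h.Sm_zero] at this
    exact this.eventually_lt_const (by linarith [h.d0])
  have c3 : ∀ᶠ e in 𝓝[>] (0 : ℝ), 0 < Sp a e := by
    have := h.Sp'.continuousAt.tendsto.mono_left (nhdsWithin_le_nhds (s := Ioi 0))
    rw [h.Sp_zero] at this
    exact this.eventually_const_lt (by linarith [h.d0])
  have c4 : ∀ᶠ e in 𝓝[>] (0 : ℝ), Sp a e < 1 := by
    have := h.Sp'.continuousAt.tendsto.mono_left (nhdsWithin_le_nhds (s := Ioi 0))
    rw [h.Sp_zero] at this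
    exact this.eventually_lt_const (by linarith [h.d1])
  have c5 := h.value
  obtain ⟨e0, he0, hsub⟩ := mem_nhdsGT_iff_exists_Ioo_subset.1
    (c1.and (c2.and (c3.and (c4.and c5))))
  refine ⟨e0, he0, fun e he hee => ?_⟩
  obtain ⟨g1, g2, g3, g4, g5⟩ := hsub ⟨he, hee⟩
  have hA1 : 1 ≤ AA a e := by
    rw [AA]; have : 0 < e / (1 - a ^ 2) := by positivity
    linarith
  have hκ : (1 - a ^ 2) / a ^ 2 = κ ^ 2 := by
    rw [h.b_eq, mul_div_cancel_left₀ _ (pow_ne_zero 2 ha.ne')]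
  have hκ1 : κ ^ 2 < 1 := by
    rw [h.hk]; have := h.d0; nlinarith
  have hd2 : dd a e ^ 2 = AA a e ^ 2 - (1 - a ^ 2) / a ^ 2 := by
    rw [dd, Real.sq_sqrt]
    rw [hκ]; nlinarith
  have hd0 : 0 < dd a e := by
    rw [dd, Real.sqrt_pos, hκ]; nlinarith
  have n1 : (1 : ℝ) - a ≠ 0 := by linarith
  have n2 : (1 : ℝ) + a ≠ 0 := by linarith
  have n3 : (1 : ℝ) - a ^ 2 ≠ 0 := hb.ne'
  have f1 : chi a e 1 = ((mu a e + AA a e : ℝ) : ℂ) := by
    have := chi_ofReal a e 1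
    rw [ofReal_one] at this
    rw [this]
    congr 1
    rw [chiR, mu, AA, mul_one]
    have e1 : (1 : ℝ) - a ^ 2 = (1 - a) * (1 + a) := by ring
    rw [e1]
    field_simp
    ring
  have f2 : chi a e (-1) = ((mu a e - AA a e : ℝ) : ℂ) := by
    have := chi_ofReal a e (-1)
    rw [ofReal_neg, ofReal_one] at this
    rw [this]
    congr 1
    rw [chiR, mu, AA]
    have e1 : (1 : ℝ) - a ^ 2 = (1 - a) * (1 + a) := by ring
    rw [e1, show 1 - a * (-1 : ℝ) = 1 + a by ring]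
    field_simp
    ring
  have f3 : (chi a e 1 + chi a e (-1)) / 2 = (mu a e : ℂ) := by
    rw [f1, f2]; push_cast; ring
  have f4 : (chi a e 1 - chi a e (-1)) / 2 = (AA a e : ℂ) := by
    rw [f1, f2]; push_cast; ring
  refine ⟨Sp a e, Sm a e, dd a e, g1, by linarith, g4, hd0, ?_, ?_, ?_, ?_⟩
  · rw [f3, chi_ofReal, Sp, chiR_gR ha he]; push_cast; rfl
  · rw [f3, chi_ofReal, Sm, chiR_gR ha he]; push_cast; rfl
  · rw [f4, ← ofReal_pow, hd2]; push_cast; rfl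
  · rw [f4, ofReal_re]
    exact g5

end C3N.H47
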